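import Mathlib

namespace Pool.Agent.Results.MP_7f8e47_co.PlayerTwo

/-- The Tribonacci terms `S 1 = 1`, `S 2 = 2`, `S 3 = 4`,
`S (i+1) = S i + S (i-1) + S (i-2)` for `i ≥ 3` (`S 0` is a dummy value, never used). -/
def S : ℕ → ℕ
  | 0 => 0
  | 1 => 1
  | 2 => 2
  | 3 => 4
  | (n + 4) => S (n + 3) + S (n + 2) + S (n + 1)

/-- The moves of the Tribonacci game; a position is a finite multiset of terms, `R` is the
untouched rest of the position. -/
inductive Move : Multiset ℕ → Multiset ℕ → Prop
  | rule1 (R : Multiset ℕ) (i : ℕ) (hi : 3 ≤ i) :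
      Move (R + {S (i - 2), S (i - 1), S i}) (R + {S (i + 1)})
  | rule2 (R : Multiset ℕ) : Move (R + {S 1, S 1, S 2}) (R + {S 3})
  | rule3 (R : Multiset ℕ) : Move (R + {S 1, S 1}) (R + {S 2})
  | rule4 (R : Multiset ℕ) : Move (R + {S 2, S 2}) (R + {S 3})
  | rule5 (R : Multiset ℕ) : Move (R + {S 3, S 3}) (R + {S 4, S 1})
  | rule6 (R : Multiset ℕ) (i : ℕ) (hi : 4 ≤ i) :
      Move (R + {S i, S i}) (R + {S (i + 1), S (i - 3)})

/-- The player who is *not* to move has a winning strategy from the position `p` (the last
mover wins): there is a reply `σ q` to every move `p → q` of the player to move, it is a legal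
move `q → σ q`, and the same holds again from `σ q`.  (Inductive: the strategy wins after
finitely many moves; in particular it wins at once if the opponent cannot move.) -/
inductive SecondWins : Multiset ℕ → Prop
  | mk (p : Multiset ℕ) (σ : Multiset ℕ → Multiset ℕ) (hσ : ∀ q, Move p q → Move q (σ q))
      (h : ∀ q, Move p q → SecondWins (σ q)) : SecondWins p

lemma S_pos (i : ℕ) (hi : 1 ≤ i) : 0 < S i := by
  induction i using Nat.strong_induction_on with
  | _ i ih =>
    match i, hi with
    | 1, _ => simp [S]
    | 2, _ => simp [S]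
    | 3, _ => simp [S]
    | n + 4, _ =>
      have := ih (n + 3) (by omega) (by omega)
      simp only [S]; omega

lemma S_lt (i : ℕ) (hi : 1 ≤ i) : S i < S (i + 1) := by
  match i, hi with
  | 1, _ => simp [S]
  | 2, _ => simp [S]
  | n + 3, _ =>
    have h1 := S_pos (n + 2) (by omega)
    have h2 := S_pos (n + 1) (by omega)
    show S (n + 3) < S (n + 4)
    simp only [S]; omega

lemma S_ge (i : ℕ) (hi : 4 ≤ i) : 7 ≤ S i := by
  induction i, hi using Nat.le_induction with
  | base => simp [S]
  | succ n hn ih => have := S_lt n (by omega); omega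

lemma S_split (i : ℕ) (hi : 4 ≤ i) : S (i + 1) + S (i - 3) = 2 * S i := by
  match i, hi with
  | 4, _ => simp [S]
  | n + 5, _ =>
    show S (n + 6) + S (n + 2) = 2 * S (n + 5)
    have h1 : S (n + 6) = S (n + 5) + S (n + 4) + S (n + 3) := rfl
    have h2 : S (n + 5) = S (n + 4) + S (n + 3) + S (n + 2) := rfl
    omega

/-- sum of squares of a position. -/
def sq (p : Multiset ℕ) : ℕ := (p.map (fun x => x ^ 2)).sum

lemma sq_le (p : Multiset ℕ) : sq p ≤ p.sum ^ 2 := by
  induction p using Multiset.induction_on with
  | empty => simp [sq]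
  | cons a s ih =>
    simp only [sq, Multiset.map_cons, Multiset.sum_cons] at ih ⊢
    nlinarith [Nat.zero_le (a * s.sum)]

/-- Every move keeps the sum and either lowers the number of terms or keeps it and raises the sum
of squares. -/
lemma move_measure {p q : Multiset ℕ} (h : Move p q) :
    q.sum = p.sum ∧ (q.card < p.card ∨ (q.card = p.card ∧ sq p < sq q)) := by
  cases h with
  | rule1 R i hi =>
    obtain ⟨j, rfl⟩ : ∃ j, i = j + 3 := ⟨i - 3, by omega⟩
    refine ⟨?_, Or.inl ?_⟩
    · have e1 : j + 3 - 2 = j + 1 := by omega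
      have e2 : j + 3 - 1 = j + 2 := by omega
      have e3 : S (j + 3 + 1) = S (j + 3) + S (j + 2) + S (j + 1) := rfl
      simp only [Multiset.sum_add, Multiset.insert_eq_cons, Multiset.sum_cons,
        Multiset.sum_singleton, e1, e2, e3]
      omega
    · simp
  | rule2 R => refine ⟨?_, Or.inl ?_⟩ <;> simp [S] <;> omega
  | rule3 R => refine ⟨?_, Or.inl ?_⟩ <;> simp [S] <;> omega
  | rule4 R => refine ⟨?_, Or.inl ?_⟩ <;> simp [S] <;> omega
  | rule5 R => refine ⟨?_, Or.inr ⟨?_, ?_⟩⟩ <;> simp [S, sq] <;> omega
  | rule6 R i hi =>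
    have h1 := S_split i hi
    have h2 := S_lt i (by omega)
    refine ⟨?_, Or.inr ⟨?_, ?_⟩⟩
    · simp only [Multiset.sum_add, Multiset.insert_eq_cons, Multiset.sum_cons,
        Multiset.sum_singleton]
      omega
    · simp
    · simp only [sq, Multiset.map_add, Multiset.sum_add, Multiset.insert_eq_cons,
        Multiset.map_cons, Multiset.map_singleton, Multiset.sum_cons, Multiset.sum_singleton]
      obtain ⟨d, hd⟩ : ∃ d, S (i + 1) = S i + d ∧ 0 < d := ⟨S (i + 1) - S i, by omega, by omega⟩
      obtain ⟨hd1, hd2⟩ := hd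
      have h3 : S (i - 3) + d = S i := by omega
      have h4 : S i = S (i - 3) + d := h3.symm
      rw [hd1, h4]
      nlinarith [pow_pos hd2 2]

/-- The game terminates: the relation (is reached by a move from) is well founded. -/
lemma wf : WellFounded (fun q p => Move p q) := by
  have key : ∀ (s c d : ℕ) (p : Multiset ℕ), p.sum = s → p.card = c → s ^ 2 - sq p = d →
      Acc (fun q p => Move p q) p := by
    intro s c
    induction c using Nat.strong_induction_on with
    | _ c ihc =>
      intro d
      induction d using Nat.strong_induction_on with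
      | _ d ihd =>
        intro p h1 h2 h3
        refine Acc.intro _ fun q hq => ?_
        obtain ⟨k1, k2⟩ := move_measure hq
        rcases k2 with k2 | ⟨k2, k3⟩
        · exact ihc q.card (by omega) _ q (by omega) rfl rfl
        · have a1 := sq_le q
          have a2 : q.sum = s := by omega
          rw [a2] at a1
          exact ihd (s ^ 2 - sq q) (by omega) q a2 (by omega) rfl
  exact ⟨fun p => key _ _ _ p rfl rfl rfl⟩

lemma secondWins_iff (p : Multiset ℕ) :
    SecondWins p ↔ ∀ q, Move p q → ∃ r, Move q r ∧ SecondWins r := by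
  constructor
  · intro h
    cases h with
    | mk _ σ hσ h => exact fun q hq => ⟨σ q, hσ q hq, h q hq⟩
  · intro h
    choose! σ hσ h' using h
    exact SecondWins.mk p σ hσ h'

/-- Determinacy: exactly one of the players wins. -/
lemma determined (p : Multiset ℕ) : SecondWins p ↔ ¬ ∃ q, Move p q ∧ SecondWins q := by
  induction p using wf.induction with
  | _ p ih =>
    rw [secondWins_iff]
    constructor
    · rintro h ⟨q, hq, hs⟩
      exact (ih q hq).1 hs (h q hq)
    · intro h q hq
      by_contra hc
      exact h ⟨q, hq, (ih q hq).2 hc⟩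

/-- Moves from a position with only ones and copies of one further term `t ≥ 4`. -/
lemma moves_from {t a : ℕ} {m : ℕ} {q : Multiset ℕ} (ht : 4 ≤ t)
    (h : Move (Multiset.replicate m 1 + Multiset.replicate a t) q) :
    (∃ m', m = m' + 2 ∧ q = Multiset.replicate m' 1 + Multiset.replicate a t + {2}) ∨
    (2 ≤ a ∧ t = 4 ∧ q = Multiset.replicate m 1 + Multiset.replicate (a - 2) t + {7, 1}) ∨
    (2 ≤ a ∧ 7 ≤ t) := by
  generalize hA : Multiset.replicate m 1 + Multiset.replicate a t = A at h
  have hmem : ∀ x ∈ A, x = 1 ∨ (x = t ∧ 0 < a) := by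
    intro x hx
    rw [← hA, Multiset.mem_add] at hx
    rcases hx with hx | hx
    · exact Or.inl (Multiset.eq_of_mem_replicate hx)
    · refine Or.inr ⟨Multiset.eq_of_mem_replicate hx, ?_⟩
      rcases Nat.eq_zero_or_pos a with h0 | h0
      · subst h0; simp at hx
      · exact h0
  have hc1 : A.count 1 = m := by
    rw [← hA, Multiset.count_add, Multiset.count_replicate_self, Multiset.count_replicate]
    rw [if_neg (by omega)]; rfl
  have hct : A.count t = a := by
    rw [← hA, Multiset.count_add, Multiset.count_replicate_self, Multiset.count_replicate]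
    rw [if_neg (by omega)]; omega
  cases h with
  | rule1 R i hi =>
    exfalso
    obtain ⟨j, rfl⟩ : ∃ j, i = j + 3 := ⟨i - 3, by omega⟩
    have h1 := S_lt (j + 1) (by omega)
    have h2 := S_lt (j + 2) (by omega)
    have h0 := S_pos (j + 1) (by omega)
    have m1 := hmem (S (j + 3 - 1)) (by simp)
    have m2 := hmem (S (j + 3)) (by simp)
    have e2 : j + 3 - 1 = j + 2 := by omega
    rw [e2] at m1
    have h1' : S (j + 1) < S (j + 2) := h1
    have h2' : S (j + 2) < S (j + 3) := h2
    omega
  | rule2 R =>
    exfalso
    have m1 := hmem (S 2) (by simp)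
    simp only [S] at m1
    omega
  | rule3 R =>
    left
    have h2 : 2 ≤ m := by
      rw [← hc1]
      simp [S]
    obtain ⟨m', rfl⟩ : ∃ m', m = m' + 2 := ⟨m - 2, by omega⟩
    refine ⟨m', rfl, ?_⟩
    have : R = Multiset.replicate m' 1 + Multiset.replicate a t := by
      have h3 : R + {1, 1} = (Multiset.replicate m' 1 + Multiset.replicate a t) + {1, 1} := by
        have : R + {S 1, S 1} = R + {1, 1} := rfl
        rw [← this, ← hA, Multiset.replicate_add]
        have e : Multiset.replicate 2 1 = ({1, 1} : Multiset ℕ) := rfl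
        rw [e]
        abel
      exact add_right_cancel h3
    rw [this]
    rfl
  | rule4 R =>
    exfalso
    have m1 := hmem (S 2) (by simp)
    simp only [S] at m1
    omega
  | rule5 R =>
    right; left
    have m1 := hmem (S 3) (by simp)
    simp only [S] at m1
    have ht4 : t = 4 := by omega
    subst ht4
    have h2 : 2 ≤ a := by
      rw [← hct]
      simp [S]
    refine ⟨h2, rfl, ?_⟩
    obtain ⟨b, rfl⟩ : ∃ b, a = b + 2 := ⟨a - 2, by omega⟩
    have e0 : b + 2 - 2 = b := by omega
    rw [e0]
    have : R = Multiset.replicate m 1 + Multiset.replicate b 4 := by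
      have h3 : R + {4, 4} = (Multiset.replicate m 1 + Multiset.replicate b 4) + {4, 4} := by
        have : R + {S 3, S 3} = R + {4, 4} := rfl
        rw [← this, ← hA, Multiset.replicate_add]
        have e : Multiset.replicate 2 4 = ({4, 4} : Multiset ℕ) := rfl
        rw [e]
        abel
      exact add_right_cancel h3
    rw [this]
    rfl
  | rule6 R i hi =>
    right; right
    have h7 := S_ge i hi
    have m1 := hmem (S i) (by simp)
    have ht : t = S i := by omega
    refine ⟨?_, by omega⟩
    rw [← hct, ht]
    simp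

/-- For every `n ≥ 10` the second player has a winning strategy in the Tribonacci game on `n`. -/
theorem main (n : ℕ) (hn : 10 ≤ n) : SecondWins (Multiset.replicate n (S 1)) := by
  obtain ⟨k, rfl⟩ : ∃ k, n = k + 10 := ⟨n - 10, by omega⟩
  have hS1 : S 1 = 1 := rfl
  rw [hS1]
  by_contra hstart
  have D := determined
  -- (1)
  have p1 : SecondWins (Multiset.replicate (k + 8) 1 + {2}) := by
    rw [D] at hstart
    push Not at hstart
    obtain ⟨q, hq, hs⟩ := hstart
    have hq' : Move (Multiset.replicate (k + 10) 1 + Multiset.replicate 0 4) q := by simpa using hq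
    rcases moves_from (le_refl 4) hq' with ⟨m', h1, h2⟩ | h | h
    · have : m' = k + 8 := by omega
      subst this
      rw [h2] at hs
      simpa using hs
    · omega
    · omega
  have n1 : ¬ SecondWins (Multiset.replicate (k + 6) 1 + {4}) := by
    intro hc
    refine (D _).1 p1 ⟨_, ?_, hc⟩
    have := Move.rule2 (Multiset.replicate (k + 6) 1)
    have e : Multiset.replicate (k + 6) 1 + {S 1, S 1, S 2} =
        Multiset.replicate (k + 8) 1 + {2} := by
      rw [show k + 8 = (k + 6) + 2 by omega, Multiset.replicate_add (k + 6) 2 1]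
      have e : Multiset.replicate 2 1 = ({1, 1} : Multiset ℕ) := rfl
      rw [e, add_assoc]
      rfl
    rw [e] at this
    exact this
  have p2 : SecondWins (Multiset.replicate (k + 4) 1 + {4} + {2}) := by
    rw [D] at n1
    push Not at n1
    obtain ⟨q, hq, hs⟩ := n1
    have hq' : Move (Multiset.replicate (k + 6) 1 + Multiset.replicate 1 4) q := by simpa using hq
    rcases moves_from (le_refl 4) hq' with ⟨m', h1, h2⟩ | h | h
    · have : m' = k + 4 := by omega
      subst this
      rw [h2] at hs
      simpa using hs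
    · omega
    · omega
  have n2 : ¬ SecondWins (Multiset.replicate (k + 3) 1 + {7}) := by
    intro hc
    refine (D _).1 p2 ⟨_, ?_, hc⟩
    have := Move.rule1 (Multiset.replicate (k + 3) 1) 3 (le_refl 3)
    have e : Multiset.replicate (k + 3) 1 + {S (3 - 2), S (3 - 1), S 3} =
        Multiset.replicate (k + 4) 1 + {4} + {2} := by
      rw [show k + 4 = (k + 3) + 1 by omega, Multiset.replicate_add (k + 3) 1 1, add_assoc,
        add_assoc]
      have e1 : ({S (3 - 2), S (3 - 1), S 3} : Multiset ℕ) =
          Multiset.replicate 1 1 + ({4} + {2}) := by decide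
      rw [e1]
    rw [e] at this
    exact this
  have n3 : ¬ SecondWins (Multiset.replicate (k + 2) 1 + Multiset.replicate 2 4) := by
    intro hc
    refine (D _).1 p2 ⟨_, ?_, hc⟩
    have := Move.rule2 (Multiset.replicate (k + 2) 1 + {4})
    have e : Multiset.replicate (k + 2) 1 + {4} + {S 1, S 1, S 2} =
        Multiset.replicate (k + 4) 1 + {4} + {2} := by
      rw [show k + 4 = (k + 2) + 2 by omega, Multiset.replicate_add (k + 2) 2 1]
      have e : Multiset.replicate 2 1 = ({1, 1} : Multiset ℕ) := rfl
      have e2 : ({S 1, S 1, S 2} : Multiset ℕ) = {1, 1} + {2} := rfl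
      rw [e, e2]
      abel
    have e3 : Multiset.replicate (k + 2) 1 + {4} + {S 3} =
        Multiset.replicate (k + 2) 1 + Multiset.replicate 2 4 := by
      rw [add_assoc]; rfl
    rw [e, e3] at this
    exact this
  have p3 : SecondWins (Multiset.replicate (k + 1) 1 + {7} + {2}) := by
    rw [D] at n2
    push Not at n2
    obtain ⟨q, hq, hs⟩ := n2
    have hq' : Move (Multiset.replicate (k + 3) 1 + Multiset.replicate 1 7) q := by simpa using hq
    rcases moves_from (by norm_num) hq' with ⟨m', h1, h2⟩ | h | h
    · have : m' = k + 1 := by omega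
      subst this
      rw [h2] at hs
      simpa using hs
    · omega
    · omega
  have p4 : SecondWins (Multiset.replicate k 1 + Multiset.replicate 2 4 + {2}) := by
    have n3' := n3
    rw [D] at n3'
    push Not at n3'
    obtain ⟨q, hq, hs⟩ := n3'
    rcases moves_from (le_refl 4) hq with ⟨m', h1, h2⟩ | ⟨h1, h2, h3⟩ | h
    · have : m' = k := by omega
      subst this
      rw [h2] at hs
      exact hs
    · exfalso
      apply n2
      have e : q = Multiset.replicate (k + 3) 1 + {7} := by
        rw [h3, show k + 3 = (k + 2) + 1 by omega, Multiset.replicate_add (k + 2) 1 1]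
        have e2 : ({7, 1} : Multiset ℕ) = {1} + {7} := by decide
        have e3 : Multiset.replicate 1 1 = ({1} : Multiset ℕ) := rfl
        have e4 : Multiset.replicate (2 - 2) 4 = (0 : Multiset ℕ) := rfl
        rw [e2, e3, e4]
        abel
      rw [← e]; exact hs
    · omega
  refine (D _).1 p4 ⟨_, ?_, p3⟩
  have := Move.rule5 (Multiset.replicate k 1 + {2})
  have e : Multiset.replicate k 1 + {2} + {S 3, S 3} =
      Multiset.replicate k 1 + Multiset.replicate 2 4 + {2} := by
    have e2 : ({S 3, S 3} : Multiset ℕ) = Multiset.replicate 2 4 := rfl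
    rw [e2]; abel
  have e' : Multiset.replicate k 1 + {2} + {S 4, S 1} =
      Multiset.replicate (k + 1) 1 + {7} + {2} := by
    have e2 : ({S 4, S 1} : Multiset ℕ) = {7} + {1} := rfl
    have e3 : Multiset.replicate 1 1 = ({1} : Multiset ℕ) := rfl
    rw [e2, Multiset.replicate_add k 1 1, e3]
    abel
  rw [e, e'] at this
  exact this

/-- There is an integer `N` (in fact `N = 10` works) such that for every `n ≥ N` Player 2 has a
winning strategy in the Tribonacci Zeckendorf game on `n`. -/
theorem result : ∃ N : ℕ, ∀ n : ℕ, N ≤ n → SecondWins (Multiset.replicate n (S 1)) :=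
  ⟨10, fun n hn => main n hn⟩

end Pool.Agent.Results.MP_7f8e47_co.PlayerTwo
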